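import Pool.Agent.KDD.Stmts
import Pool.Agent.Helper89_AQT.Final

/-!
# MP_160b6c_nt: torsion of genus 2 Jacobians and the Szpiro ratio (draft of the hand-in)
-/

namespace Pool.Agent.KDDDraft

open Polynomial NumberField

/-- The finite place `v` of `K` is an odd simple node of the curve `y^2 = f(x)`, `f` a quintic with
coefficients which are integral at `v`: `v` does not divide 2, `f = (x - e)^2 h(x)` modulo `v`, where
`h` is monic of degree 3, its roots are distinct modulo `v` and different from `e`, and `v` divides the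
discriminant of `f`. -/
def SimpleNode {K : Type} [Field K] [NumberField K] (v : FinitePlace K) (f : K[X]) : Prop :=
  v 2 = 1 ∧ v (discr f) < 1 ∧ ∃ (e : K) (h : K[X]), v e ≤ 1 ∧ (∀ n, v (h.coeff n) ≤ 1) ∧
    h.Monic ∧ h.natDegree = 3 ∧ (∀ n, v ((f - (X - C e) ^ 2 * h).coeff n) < 1) ∧
    v (h.eval e) = 1 ∧ v (discr h) = 1

/-- `v` does not divide 2 and `f` has no triple root modulo `v`: `f`, `f'`, `f''` (with coefficients
which are integral at `v`) generate the unit ideal modulo `v`. -/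
def NoTripleRoot {K : Type} [Field K] [NumberField K] (v : FinitePlace K) (f : K[X]) : Prop :=
  v 2 = 1 ∧ ∃ a b c : K[X], (∀ n, v (a.coeff n) ≤ 1 ∧ v (b.coeff n) ≤ 1 ∧ v (c.coeff n) ≤ 1) ∧
    ∀ n, v ((a * f + b * derivative f + c * derivative (derivative f) - 1).coeff n) < 1

/-- The largest distance of two complex roots of `F`. -/
noncomputable def spread (F : ℂ[X]) : ℝ :=
  sSup {r : ℝ | ∃ a b : ℂ, F.IsRoot a ∧ F.IsRoot b ∧ r = ‖a - b‖}

/-- `log H(f)`, where `H(f)` is the product of the spreads of `f` over all embeddings `K -> ℂ`. -/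
noncomputable def logH {K : Type} [Field K] [NumberField K] (f : K[X]) : ℝ :=
  ∑ v : InfinitePlace K, (v.mult : ℝ) * Real.log (spread (f.map v.embedding))

/-- The ideal `(A, y - B)` of the coordinate ring `F[x,y]/(y² - f)` of the affine curve `y² = f(x)`. -/
noncomputable def mumford {F : Type} [Field F] (f A B : F[X]) : Ideal (H58Q.Q F f) :=
  Ideal.span {(⟨A, 0⟩ : H58Q.Q F f), ⟨-B, 1⟩}

/-- **Degenerate of degree `B`**: over some algebraically closed field `F` containing `K` the Jacobian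
`J` of `y² = f(x)` has an infinite subgroup `Γ` which is contained in a curve of degree at most `B`:
there is a nonzero polynomial `Ψ(s, p)` of total degree at most `B` such that `Ψ(x₁ + x₂, x₁ x₂) = 0` for
all elements `[(x₁, y₁) + (x₂, y₂) - 2∞]` of `Γ` outside the theta divisor. Such an element is the class
of an ideal `(A, y - B')` with `A` monic of degree 2, `deg B' < 2`, `A ∣ B'² - f`, and
`A = x² - s x + p`. (The Zariski closure of `Γ` is then one-dimensional, so `J` contains an elliptic curve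
over `F`.) -/
def Degenerate (B : ℕ) {K : Type} [Field K] (f : K[X]) : Prop :=
  ∃ (F : Type) (_ : Field F) (_ : IsAlgClosed F) (φ : K →+* F) (Y : UBT.OddCurve F)
    (_ : IsDedekindDomain (H58Q.Q F Y.f)) (Γ : Subgroup Y.Jac) (Ψ : MvPolynomial (Fin 2) F),
    Y.f = f.map φ ∧ Infinite Γ ∧ Ψ ≠ 0 ∧ Ψ.totalDegree ≤ B ∧
    ∀ (A B' : F[X]) (h : mumford Y.f A B' ∈ nonZeroDivisors (Ideal (H58Q.Q F Y.f))),
      A.Monic → A.natDegree = 2 → B'.degree < A.degree → A ∣ B' ^ 2 - Y.f →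
      ClassGroup.mk0 ⟨mumford Y.f A B', h⟩ ∈ Γ →
      MvPolynomial.eval ![-A.coeff 1, A.coeff 0] Ψ = 0

theorem int_le {K : Type} [Field K] [NumberField K] (v : FinitePlace K) {x : K}
    (hx : IsIntegral ℤ x) : v x ≤ 1 := by
  obtain ⟨a, ha⟩ : ∃ a : 𝓞 K, algebraMap (𝓞 K) K a = x := ⟨⟨_, hx⟩, rfl⟩
  rw [← ha, ← FinitePlace.norm_embedding_eq]
  exact FinitePlace.norm_le_one K v.maximalIdeal a

/-- **Torsion of genus 2 Jacobians and the Szpiro ratio.** -/
theorem result (hkdd : Pool.Agent.KDD.KddStatement) (d : ℕ) (ε : ℝ) (hε : 0 < ε) : ∃ B : ℕ,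
    ∀ (K : Type) [Field K] [NumberField K], Module.finrank ℚ K ≤ d →
    -- a curve `Y : y² = f(x)`, `f` monic of degree 5 with coefficients in the ring of integers
    ∀ Y : UBT.OddCurve K, Y.f.Monic → Y.f.natDegree = 5 → (∀ n, IsIntegral ℤ (Y.f.coeff n)) →
    -- (1) a finite set of places `v` over `disc f`, not over 2, without triple root, `R ≥ H ^ ε`
    (∀ S : Finset (FinitePlace K), (∀ v ∈ S, NoTripleRoot v Y.f ∧ v (discr Y.f) < 1) →
      ε * logH Y.f ≤ ∑ v ∈ S, Real.log (Ideal.absNorm v.maximalIdeal.asIdeal) →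
      (∀ c : Y.Jac, IsOfFinOrder c → orderOf c ≤ B) ∨ Degenerate B Y.f) ∧
    -- (2) a finite set of odd simple nodes, `R² D ≥ H ^ (24 + ε)`
    (∀ S : Finset (FinitePlace K), (∀ v ∈ S, SimpleNode v Y.f) →
      (24 + ε) * logH Y.f ≤
        ∑ v ∈ S, (2 * Real.log (Ideal.absNorm v.maximalIdeal.asIdeal) - Real.log (v (discr Y.f))) →
      ∀ c : Y.Jac, IsOfFinOrder c → orderOf c ≤ B) := by
  obtain ⟨B₁, h₁⟩ := hkdd d ε hε
  obtain ⟨B₂, h₂⟩ := Pool.Agent.AQT.H89.final d ε hε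
  refine ⟨max B₁ B₂, ?_⟩
  intro K _ _ hd Y hm hdeg hint
  refine ⟨fun S hS hH => ?_, fun S hS hH c hc => ?_⟩
  · have hS' : ∀ v ∈ S, Pool.Agent.KDD.CubeFree v.val Y.f ∧ v (discr Y.f) < 1 := by
      intro v hv
      obtain ⟨⟨h2, a, b, c, hc, hcong⟩, hD⟩ := hS v hv
      exact ⟨⟨h2, fun n => int_le v (hint n), a, b, c, hc, hcong⟩, hD⟩
    rcases h₁ K hd Y hm hdeg hint S hS' hH with h | h
    · exact Or.inl fun c hc => (h c hc).trans (le_max_left _ _)
    · refine Or.inr ?_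
      obtain ⟨F, i1, i2, φ, Y', i3, Γ, Ψ, e1, e2, e3, e4, e5⟩ := h
      exact ⟨F, i1, i2, φ, Y', i3, Γ, Ψ, e1, e2, e3, e4.trans (le_max_left _ _),
        fun A B' h a1 a2 a3 a4 a5 => e5 A B' h ⟨a1, a3, a4⟩ a2 a5⟩
  · have hS' : ∀ v ∈ S, Pool.Agent.SZT.NodeShape v.val Y.f ∧ v (discr Y.f) < 1 := by
      intro v hv
      obtain ⟨h2, hD, e, h, he, hh, hmo, h3, hcong, hev, hdis⟩ := hS v hv
      exact ⟨⟨h2, fun n => int_le v (hint n), e, h, he, hh, hmo, h3, hcong, hev, hdis⟩, hD⟩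
    refine (h₂ K hd Y hm hdeg hint S hS' ?_ c hc).trans (le_max_right _ _)
    exact hH

end Pool.Agent.KDDDraft
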